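import Pool.Agent.W707.HM.Stm

/-!
# Project HM: scaling of the class `RC`
-/

set_option autoImplicit false

namespace Pool.Agent.W315.HM.Scl

open Pool.Agent.W707.HM
open Pool.Agent.W360.MQ (RC)
open Set

theorem main : S_SCL := by
  intro α β k e l h hk he hl τ
  have hea : |e| = 1 := by
    have h1 : |e| ^ 2 = 1 := by rw [sq_abs, he]
    nlinarith [abs_nonneg e]
  have h0 := h (e * l * τ)
  have h1 : ConvexOn ℝ univ (fun t : ℝ => α (max |l * t| |e * l * τ|) +
      β (max |l * t| |e * l * τ|) * ((l * t) * (e * l * τ))) := by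
    refine ⟨convex_univ, ?_⟩
    intro x _ y _ a b ha hb hab
    have := h0.2 (mem_univ (l * x)) (mem_univ (l * y)) ha hb hab
    simp only [smul_eq_mul] at this ⊢
    have e1 : a * (l * x) + b * (l * y) = l * (a * x + b * y) := by ring
    rw [e1] at this
    exact this
  have h2 := h1.smul hk
  have e2 : ∀ t : ℝ, max |l * t| |e * l * τ| = l * max |t| |τ| := by
    intro t
    rw [abs_mul, abs_mul, abs_mul, hea, one_mul, abs_of_pos hl, mul_max_of_nonneg _ _ hl.le]
  have e3 : (fun t : ℝ => k * α (l * max |t| |τ|) + k * e * l ^ 2 * β (l * max |t| |τ|) * (t * τ)) =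
      fun t : ℝ => k • (α (max |l * t| |e * l * τ|) +
        β (max |l * t| |e * l * τ|) * (l * t * (e * l * τ))) := by
    funext t
    simp only [smul_eq_mul]
    rw [e2 t]
    ring
  show ConvexOn ℝ univ (fun t : ℝ => k * α (l * max |t| |τ|) +
    k * e * l ^ 2 * β (l * max |t| |τ|) * (t * τ))
  rw [e3]
  exact h2

end Pool.Agent.W315.HM.Scl
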